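import Pool.Agent.Lib.MP_270b6b_co.N3.Core

set_option autoImplicit false

namespace Pool.Agent.Lib.MP_270b6b_co.N3

open Finset

variable {V : Type*} [Fintype V] [DecidableEq V] {G : SimpleGraph V} [DecidableRel G.Adj]
variable {v x y z : V} {L : Finset V} {E : Finset (Sym2 V)}

lemma Cfg.Ecard (h : Cfg G v x y z L E) : E.card ≤ 2 := by
  have h1 := h.tot
  have h2 := h.hN
  have h3 := h.h3x
  have h4 := h.h3y
  have h5 := h.h3z
  omega

lemma mem_S {a : V} (hx : G.Adj x a) (ha : a ∈ L) : a ∈ G.neighborFinset x ∩ L := by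
  rw [mem_inter, SimpleGraph.mem_neighborFinset]; exact ⟨hx, ha⟩

/-- a vertex of `L` outside `A`, not adjacent to two centres, the third centre in `A` -/
lemma Cfg.lsideE (h : Cfg G v x y z L E) {A : Finset V} (hv : v ∈ A) {w : V} (hw : w ∈ L)
    (hx : x ∈ A ∨ ¬ G.Adj w x) (hy : y ∈ A ∨ ¬ G.Adj w y) (hz : z ∈ A ∨ ¬ G.Adj w z) :
    (G.neighborFinset w \ A).card ≤ 2 := by
  refine le_trans (card_le_card ?_) ((h.rdeg hw).trans h.Ecard)
  intro t ht
  simp only [mem_sdiff, SimpleGraph.mem_neighborFinset, mem_inter] at ht ⊢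
  refine ⟨ht.1, (h.hL t).2 ⟨?_, ?_, ?_, ?_⟩⟩
  · rintro rfl; exact ht.2 hv
  · rintro rfl; exact hx.elim (fun h => ht.2 h) (fun h => h ht.1)
  · rintro rfl; exact hy.elim (fun h => ht.2 h) (fun h => h ht.1)
  · rintro rfl; exact hz.elim (fun h => ht.2 h) (fun h => h ht.1)

/-- two centres which are not adjacent, with three neighbours in `L` each and a common neighbour there -/
lemma Cfg.g3 (h : Cfg G v x y z L E) (hr : E.card ≤ 1) (hyz : ¬ G.Adj y z)
    (hy3 : (G.neighborFinset y ∩ L).card = 3) (hz3 : (G.neighborFinset z ∩ L).card = 3) (u : V)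
    (huy : u ∈ G.neighborFinset y ∩ L) (huz : u ∈ G.neighborFinset z ∩ L) : False := by
  -- choose a good common neighbour
  have key : ∃ u', u' ∈ G.neighborFinset y ∩ L ∧ u' ∈ G.neighborFinset z ∩ L ∧
      ∀ w ∈ L, w ≠ u' → G.Adj w y → G.Adj w z → (G.neighborFinset w ∩ L) \ {v, x, u'} = ∅ := by
    by_cases hc : ∃ u', u' ∈ G.neighborFinset y ∩ L ∧ u' ∈ G.neighborFinset z ∩ L ∧
      (G.neighborFinset u' ∩ L).Nonempty
    · obtain ⟨u', h1, h2, t, ht⟩ := hc
      refine ⟨u', h1, h2, fun w hw hwu _ _ => ?_⟩
      rw [mem_inter, SimpleGraph.mem_neighborFinset] at ht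
      have hu'L : u' ∈ L := (mem_inter.1 h1).2
      have e1 := h.hE u' t hu'L ht.2 ht.1
      rw [eq_empty_iff_forall_notMem]
      intro s hs
      simp only [mem_sdiff, mem_inter, SimpleGraph.mem_neighborFinset, mem_insert,
        mem_singleton] at hs
      have e2 := h.hE w s hw hs.1.2 hs.1.1
      have e3 := card_le_one.1 hr _ e2 _ e1
      rw [Sym2.eq_iff] at e3
      rcases e3 with ⟨e4, _⟩ | ⟨_, e5⟩
      · exact hwu e4
      · exact hs.2 (Or.inr (Or.inr e5))
    · push Not at hc
      refine ⟨u, huy, huz, fun w hw _ hwy hwz => ?_⟩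
      have := hc w (mem_S hwy.symm hw) (mem_S hwz.symm hw)
      rw [this, empty_sdiff]
  obtain ⟨u', h1, h2, h3⟩ := key
  have hu'L : u' ∈ L := (mem_inter.1 h1).2
  refine h.close {v, x, u'} (by simp) (own3 G v x u') (fun hx => absurd (by simp) hx) ?_ ?_ ?_
  · intro _
    exact h.swap12.cside (by simp) (Or.inl (by simp)) (Or.inr hyz) (left3 hy3.le h1 (by simp))
  · intro _
    exact h.swap13.cside (by simp) (Or.inr fun h => hyz h.symm) (Or.inl (by simp))
      (left3 hz3.le h2 (by simp))
  · intro w hw hwA
    have hwu : w ≠ u' := fun h => hwA (by rw [h]; simp)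
    have hr1 : ((G.neighborFinset w ∩ L) \ {v, x, u'}).card ≤ 1 :=
      (card_le_card sdiff_subset).trans ((h.rdeg hw).trans hr)
    by_cases hwz : G.Adj w z
    · by_cases hwy : G.Adj w y
      · exact h.lside1 (by simp) (by simp) (h3 w hw hwu hwy hwz)
      · exact h.swap23.lside1' (by simp) (by simp) hwy hr1
    · exact h.lside1' (by simp) (by simp) hwz hr1

/-- replace the centre `z` by a free neighbour `a` -/
lemma Cfg.g2 (h : Cfg G v x y z L E) (hz3 : (G.neighborFinset z ∩ L).card = 3) {a : V}
    (ha : a ∈ G.neighborFinset z ∩ L) (hva : ¬ G.Adj v a)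
    (hxy : ¬ G.Adj x y ∨ (¬ G.Adj x a ∧ ¬ G.Adj y a))
    (hr : ∀ w ∈ L, w ≠ a → G.Adj w z → ((G.neighborFinset w ∩ L) \ {a}).card ≤ 1) : False := by
  have haL : a ∈ L := (mem_inter.1 ha).2
  refine h.close {v, x, y, a} (by simp) (own4 G v x y a (Or.inr (Or.inr hva)) ?_ ?_
    (Or.inl fun h => hva h.symm)) (fun hx => absurd (by simp) hx) (fun hx => absurd (by simp) hx) ?_ ?_
  · rcases hxy with h1 | ⟨h1, _⟩
    · exact Or.inr (Or.inl h1)
    · exact Or.inr (Or.inr h1)
  · rcases hxy with h1 | ⟨_, h1⟩
    · exact Or.inr (Or.inl fun h => h1 h.symm)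
    · exact Or.inr (Or.inr h1)
  · intro _
    exact h.swap13.cside (by simp) (Or.inl (by simp)) (Or.inl (by simp))
      (left3 hz3.le ha (by simp))
  · intro w hw hwA
    have hwa : w ≠ a := fun h => hwA (by rw [h]; simp)
    by_cases hwz : G.Adj w z
    · refine h.lside2 (by simp) (by simp) (by simp) ((card_le_card ?_).trans (hr w hw hwa hwz))
      apply sdiff_subset_sdiff (Subset.refl _)
      intro t ht
      rw [mem_singleton] at ht
      rw [ht]; simp
    · exact h.lsideE (by simp) hw (Or.inl (by simp)) (Or.inl (by simp)) (Or.inr hwz)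

lemma Cfg.g2' (h : Cfg G v x y z L E) (hE1 : E.card ≤ 1)
    (hz3 : (G.neighborFinset z ∩ L).card = 3) {a : V}
    (ha : a ∈ G.neighborFinset z ∩ L) (hva : ¬ G.Adj v a)
    (hxy : ¬ G.Adj x y ∨ (¬ G.Adj x a ∧ ¬ G.Adj y a)) : False :=
  h.g2 hz3 ha hva hxy fun _ hw _ _ => (card_le_card sdiff_subset).trans ((h.rdeg hw).trans hE1)

lemma Cfg.centre (h : Cfg G v x y z L E) (hxy : G.Adj x y) (hxz : G.Adj x z) (hvz : ¬ G.Adj v z) :
    False := by
  have h1 := h.tot
  have h2 := h.hN
  have h3 := h.h3x
  have h4 := h.h3y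
  have h5 := h.h3z
  rw [ee_one G hxy, ee_one G hxz] at h1
  have hyz : ¬ G.Adj y z := by
    intro hh
    rw [ee_one G hh] at h1
    omega
  have cx : (G.neighborFinset x ∩ L).card = 3 := by omega
  have cy : (G.neighborFinset y ∩ L).card = 3 := by omega
  have cz : (G.neighborFinset z ∩ L).card = 3 := by omega
  have hE : E.card = 0 := by omega
  have key : ∀ a ∈ G.neighborFinset x ∩ L, G.Adj a v ∧ G.Adj a y ∧ G.Adj a z := by
    intro a ha
    by_contra hcon
    have hcon' : ¬ G.Adj a v ∨ ¬ G.Adj a y ∨ ¬ G.Adj a z := by tauto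
    refine h.close {v, y, z, a} (by simp) (own4 G v y z a (Or.inr (Or.inl hvz)) (Or.inr (Or.inl hyz))
      (Or.inr (Or.inl fun h => hyz h.symm)) hcon') ?_ (fun hx => absurd (by simp) hx)
      (fun hx => absurd (by simp) hx) ?_
    · intro _
      exact h.cside (by simp) (Or.inl (by simp)) (Or.inl (by simp)) (left3 cx.le ha (by simp))
    · exact h.swap12.lside0 (by simp) hE (by simp)
  obtain ⟨a, ha⟩ : (G.neighborFinset x ∩ L).Nonempty := by
    rw [← card_pos]; omega
  have haL : a ∈ L := (mem_inter.1 ha).2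
  exact h.g3 (by omega) hyz cy cz a (mem_S (key a ha).2.1.symm haL) (mem_S (key a ha).2.2.symm haL)

/-- the centres are neighbours of the hub -/
lemma Cfg.adjz (h : Cfg G v x y z L E) : G.Adj v z := by
  by_contra hvz
  by_cases hc1 : G.Adj x y ∧ G.Adj x z
  · exact h.centre hc1.1 hc1.2 hvz
  by_cases hc2 : G.Adj y x ∧ G.Adj y z
  · exact h.swap12.centre hc2.1 hc2.2 hvz
  refine h.close {v, x, y, z} (by simp) (own4 G v x y z (Or.inr (Or.inr hvz)) ?_ ?_
    (Or.inl fun h => hvz h.symm)) (fun hx => absurd (by simp) hx) (fun hx => absurd (by simp) hx)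
    (fun hx => absurd (by simp) hx) ?_
  · rw [not_and_or] at hc1
    tauto
  · rw [not_and_or] at hc2
    tauto
  · intro w hw _
    exact h.lsideE (by simp) hw (Or.inl (by simp)) (Or.inl (by simp)) (Or.inl (by simp))

lemma Cfg.adjx (h : Cfg G v x y z L E) : G.Adj v x := h.swap13.adjz
lemma Cfg.adjy (h : Cfg G v x y z L E) : G.Adj v y := h.swap23.adjz

lemma Cfg.cardM (h : Cfg G v x y z L E) :
    (G.neighborFinset v).card = (G.neighborFinset v ∩ L).card + 3 := by
  have e : G.neighborFinset v = (G.neighborFinset v ∩ L) ∪ {x, y, z} := by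
    ext t
    simp only [mem_union, mem_inter, SimpleGraph.mem_neighborFinset, mem_insert, mem_singleton, h.hL]
    constructor
    · intro ht
      by_cases h1 : t = x
      · exact Or.inr (Or.inl h1)
      by_cases h2 : t = y
      · exact Or.inr (Or.inr (Or.inl h2))
      by_cases h3 : t = z
      · exact Or.inr (Or.inr (Or.inr h3))
      exact Or.inl ⟨ht, ht.ne', h1, h2, h3⟩
    · rintro (⟨h1, _⟩ | rfl | rfl | rfl)
      · exact h1
      · exact h.adjx
      · exact h.adjy
      · exact h.adjz
  have hd : Disjoint (G.neighborFinset v ∩ L) {x, y, z} := by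
    rw [disjoint_left]
    intro t ht h2
    simp only [mem_inter, mem_insert, mem_singleton, h.hL] at ht h2
    tauto
  have h3 : ({x, y, z} : Finset V).card = 3 := card_eq_three.2 ⟨x, y, z, h.hxy, h.hxz, h.hyz, rfl⟩
  conv_lhs => rw [e]
  rw [card_union_of_disjoint hd, h3]

/-- the inequality, in terms of `M`, the neighbours of the hub in `L` -/
lemma Cfg.totM (h : Cfg G v x y z L E) : 3 ≤ (G.neighborFinset v ∩ L).card ∧
    (G.neighborFinset v ∩ L).card + (G.neighborFinset x ∩ L).card + (G.neighborFinset y ∩ L).card +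
      (G.neighborFinset z ∩ L).card + ee G x y + ee G x z + ee G y z + E.card ≤ 14 := by
  have h1 := h.tot
  have h2 := h.hN
  have h3 := h.cardM
  omega

omit [Fintype V] in
/-- two sets in a small set meet -/
lemma meet {S T M : Finset V} (hS : S ⊆ M) (hT : T ⊆ M) (h : M.card < S.card + T.card) :
    ∃ u, u ∈ S ∧ u ∈ T := by
  have h1 := card_union_add_card_inter S T
  have h2 := card_le_card (union_subset hS hT)
  have : 0 < (S ∩ T).card := by omega
  obtain ⟨u, hu⟩ := card_pos.1 this
  exact ⟨u, (mem_inter.1 hu).1, (mem_inter.1 hu).2⟩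

lemma S_sub_M (h : ∀ a ∈ G.neighborFinset x ∩ L, ¬ G.Adj v a → False) :
    G.neighborFinset x ∩ L ⊆ G.neighborFinset v ∩ L := by
  intro a ha
  rw [mem_inter, SimpleGraph.mem_neighborFinset]
  exact ⟨by by_contra hh; exact h a ha hh, (mem_inter.1 ha).2⟩

lemma adj_of_mem {a : V} (ha : a ∈ G.neighborFinset x ∩ L) : G.Adj x a := by
  rw [mem_inter, SimpleGraph.mem_neighborFinset] at ha; exact ha.1

/-- no edges between the centres, two centres of degree three -/
lemma Cfg.pair0 (h : Cfg G v x y z L E) (hr : E.card ≤ 1) (hxy : ¬ G.Adj x y) (hxz : ¬ G.Adj x z)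
    (hyz : ¬ G.Adj y z) (hy : (G.neighborFinset y ∩ L).card = 3)
    (hz : (G.neighborFinset z ∩ L).card = 3) : False := by
  obtain ⟨t1, t2⟩ := h.totM
  have hx := h.h3x
  have sy : G.neighborFinset y ∩ L ⊆ G.neighborFinset v ∩ L :=
    S_sub_M fun a ha hva => h.swap23.g2' hr hy ha hva (Or.inl hxz)
  have sz : G.neighborFinset z ∩ L ⊆ G.neighborFinset v ∩ L :=
    S_sub_M fun a ha hva => h.g2' hr hz ha hva (Or.inl hxy)
  obtain ⟨u, h1, h2⟩ := meet sy sz (by omega)
  exact h.g3 hr hyz hy hz u h1 h2

/-- the last type without edges between the centres -/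
lemma Cfg.case443 (h : Cfg G v x y z L E) (hE : E.card = 0) (hxy : ¬ G.Adj x y) (hxz : ¬ G.Adj x z)
    (hyz : ¬ G.Adj y z) (hx : (G.neighborFinset x ∩ L).card = 4)
    (hy : (G.neighborFinset y ∩ L).card = 4)
    (hz : (G.neighborFinset z ∩ L).card = 3) (hM : (G.neighborFinset v ∩ L).card = 3) : False := by
  have sz : G.neighborFinset z ∩ L ⊆ G.neighborFinset v ∩ L :=
    S_sub_M fun a ha hva => h.g2' (by omega) hz ha hva (Or.inl hxy)
  have eM : G.neighborFinset z ∩ L = G.neighborFinset v ∩ L := eq_of_subset_of_card_le sz (by omega)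
  have hzv : ∀ a ∈ L, ¬ G.Adj v a → ¬ G.Adj z a := by
    intro a ha hva hza
    have := mem_S hza ha
    rw [eM] at this
    exact hva (adj_of_mem this)
  have noL : ∀ a b, a ∈ L → b ∈ L → ¬ G.Adj a b := by
    intro a b ha hb hab
    have := h.hE a b ha hb hab
    rw [card_eq_zero] at hE
    rw [hE] at this
    exact notMem_empty _ this
  -- at most one free vertex in `S x`
  have claim : ∀ {x y : V}, Cfg G v x y z L E → ¬ G.Adj x y → ¬ G.Adj x z → ¬ G.Adj y z →
      (G.neighborFinset x ∩ L).card = 4 → (G.neighborFinset y ∩ L).card = 4 →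
      ∀ a b, a ∈ G.neighborFinset x ∩ L → b ∈ G.neighborFinset x ∩ L → a ≠ b → ¬ G.Adj v a →
        ¬ G.Adj v b → False := by
    intro x y h hxy hxz hyz hx hy a b ha hb hab hva hvb
    have haL : a ∈ L := (mem_inter.1 ha).2
    have hbL : b ∈ L := (mem_inter.1 hb).2
    by_cases hc : G.Adj y a ∧ G.Adj y b
    · refine h.close {v, a, b, z} (by simp) (own4 G v a b z (Or.inl hva) (Or.inl fun h => hva h.symm)
        (Or.inl fun h => hvb h.symm) (Or.inr (Or.inl (hzv a haL hva)))) ?_ ?_
        (fun hx => absurd (by simp) hx) ?_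
      · intro _
        exact h.cside (by simp) (Or.inr hxy) (Or.inl (by simp))
          (left4 hx.le hab ha (by simp) hb (by simp))
      · intro _
        exact h.swap12.cside (by simp) (Or.inr fun h => hxy h.symm) (Or.inl (by simp))
          (left4 hy.le hab (mem_S hc.1 haL) (by simp) (mem_S hc.2 hbL) (by simp))
      · exact h.swap13.lside0 (by simp) hE (by simp)
    · refine h.close {v, a, b, y, z} (by simp) ?_ ?_ (fun hx => absurd (by simp) hx)
        (fun hx => absurd (by simp) hx) ?_
      · have hza := hzv a haL hva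
        have hzb := hzv b hbL hvb
        have hnab := noL a b haL hbL
        intro w hw
        simp only [mem_insert, mem_singleton] at hw
        rcases hw with rfl | rfl | rfl | rfl | rfl
        · refine (card_le_card (t := {y, z}) ?_).trans card_le_two
          intro t ht
          simp only [mem_inter, SimpleGraph.mem_neighborFinset, mem_insert, mem_singleton] at ht ⊢
          rcases ht with ⟨h1, rfl | rfl | rfl | rfl | rfl⟩
          · exact absurd h1 G.irrefl
          · exact absurd h1 hva
          · exact absurd h1 hvb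
          · exact Or.inl rfl
          · exact Or.inr rfl
        · refine (card_le_card (t := {y, y}) ?_).trans card_le_two
          intro t ht
          simp only [mem_inter, SimpleGraph.mem_neighborFinset, mem_insert, mem_singleton] at ht ⊢
          rcases ht with ⟨h1, rfl | rfl | rfl | rfl | rfl⟩
          · exact absurd h1.symm hva
          · exact absurd h1 G.irrefl
          · exact absurd h1 hnab
          · exact Or.inl rfl
          · exact absurd h1.symm hza
        · refine (card_le_card (t := {y, y}) ?_).trans card_le_two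
          intro t ht
          simp only [mem_inter, SimpleGraph.mem_neighborFinset, mem_insert, mem_singleton] at ht ⊢
          rcases ht with ⟨h1, rfl | rfl | rfl | rfl | rfl⟩
          · exact absurd h1.symm hvb
          · exact absurd h1.symm hnab
          · exact absurd h1 G.irrefl
          · exact Or.inl rfl
          · exact absurd h1.symm hzb
        · rw [not_and_or] at hc
          rcases hc with hc | hc
          · refine (card_le_card (t := {v, b}) ?_).trans card_le_two
            intro t ht
            simp only [mem_inter, SimpleGraph.mem_neighborFinset, mem_insert, mem_singleton] at ht ⊢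
            rcases ht with ⟨h1, rfl | rfl | rfl | rfl | rfl⟩
            · exact Or.inl rfl
            · exact absurd h1 hc
            · exact Or.inr rfl
            · exact absurd h1 G.irrefl
            · exact absurd h1 hyz
          · refine (card_le_card (t := {v, a}) ?_).trans card_le_two
            intro t ht
            simp only [mem_inter, SimpleGraph.mem_neighborFinset, mem_insert, mem_singleton] at ht ⊢
            rcases ht with ⟨h1, rfl | rfl | rfl | rfl | rfl⟩
            · exact Or.inl rfl
            · exact Or.inr rfl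
            · exact absurd h1 hc
            · exact absurd h1 G.irrefl
            · exact absurd h1 hyz
        · refine (card_le_card (t := {v, v}) ?_).trans card_le_two
          intro t ht
          simp only [mem_inter, SimpleGraph.mem_neighborFinset, mem_insert, mem_singleton] at ht ⊢
          rcases ht with ⟨h1, rfl | rfl | rfl | rfl | rfl⟩
          · exact Or.inl rfl
          · exact absurd h1 hza
          · exact absurd h1 hzb
          · exact absurd h1.symm hyz
          · exact absurd h1 G.irrefl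
      · intro _
        exact h.cside (by simp) (Or.inl (by simp)) (Or.inl (by simp))
          (left4 hx.le hab ha (by simp) hb (by simp))
      · exact h.swap13.lside0 (by simp) hE (by simp)
  -- so `M` is contained in `S x` and in `S y`
  have sub : ∀ {x y : V}, Cfg G v x y z L E → ¬ G.Adj x y → ¬ G.Adj x z → ¬ G.Adj y z →
      (G.neighborFinset x ∩ L).card = 4 → (G.neighborFinset y ∩ L).card = 4 →
      G.neighborFinset v ∩ L ⊆ G.neighborFinset x ∩ L := by
    intro x y h hxy hxz hyz hx hy
    have h1 : ((G.neighborFinset x ∩ L) \ (G.neighborFinset v ∩ L)).card ≤ 1 := by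
      rw [card_le_one]
      intro a ha b hb
      by_contra hab
      rw [mem_sdiff] at ha hb
      refine claim h hxy hxz hyz hx hy a b ha.1 hb.1 hab ?_ ?_
      · intro hva
        exact ha.2 (mem_S hva (mem_inter.1 ha.1).2)
      · intro hvb
        exact hb.2 (mem_S hvb (mem_inter.1 hb.1).2)
    have h2 := card_sdiff_add_card_inter (G.neighborFinset x ∩ L) (G.neighborFinset v ∩ L)
    have h3 : (G.neighborFinset x ∩ L) ∩ (G.neighborFinset v ∩ L) = G.neighborFinset v ∩ L :=
      eq_of_subset_of_card_le inter_subset_right (by omega)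
    rw [← h3]
    exact inter_subset_left
  have sx := sub h hxy hxz hyz hx hy
  have sy := sub h.swap12 (fun h => hxy h.symm) hyz hxz hy hx
  obtain ⟨u, hu⟩ : (G.neighborFinset v ∩ L).Nonempty := by rw [← card_pos]; omega
  have huL : u ∈ L := (mem_inter.1 hu).2
  obtain ⟨a, ha, haM⟩ : ∃ a, a ∈ G.neighborFinset x ∩ L ∧ a ∉ G.neighborFinset v ∩ L := by
    by_contra hcon
    push Not at hcon
    have := card_le_card (fun a ha => hcon a ha : G.neighborFinset x ∩ L ⊆ G.neighborFinset v ∩ L)
    omega
  have haL : a ∈ L := (mem_inter.1 ha).2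
  have hva : ¬ G.Adj v a := fun hh => haM (mem_S hh haL)
  have hua : u ≠ a := fun hh => haM (hh ▸ hu)
  have huz : u ∈ G.neighborFinset z ∩ L := by rw [eM]; exact hu
  by_cases hay : G.Adj y a
  · refine h.close {v, u, a, z} (by simp) (own4 G v u a z (Or.inr (Or.inl hva))
      (Or.inr (Or.inl (noL u a huL haL))) (Or.inl fun h => hva h.symm)
      (Or.inr (Or.inr (hzv a haL hva)))) ?_ ?_ (fun hx => absurd (by simp) hx) ?_
    · intro _
      exact h.cside (by simp) (Or.inr hxy) (Or.inl (by simp))
        (left4 hx.le hua (sx hu) (by simp) ha (by simp))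
    · intro _
      exact h.swap12.cside (by simp) (Or.inr fun h => hxy h.symm) (Or.inl (by simp))
        (left4 hy.le hua (sy hu) (by simp) (mem_S hay haL) (by simp))
    · exact h.swap13.lside0 (by simp) hE (by simp)
  · refine h.close {v, u, a, y} (by simp) (own4 G v u a y (Or.inr (Or.inl hva))
      (Or.inr (Or.inl (noL u a huL haL))) (Or.inl fun h => hva h.symm)
      (Or.inr (Or.inr hay))) ?_ (fun hx => absurd (by simp) hx) ?_ ?_
    · intro _
      exact h.cside (by simp) (Or.inl (by simp)) (Or.inr hxz)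
        (left4 hx.le hua (sx hu) (by simp) ha (by simp))
    · intro _
      exact h.swap13.cside (by simp) (Or.inl (by simp)) (Or.inr fun h => hxz h.symm)
        (left3 hz.le huz (by simp))
    · exact h.swap12.lside0 (by simp) hE (by simp)

/-- no edges between the centres, at most one edge in `L` -/
lemma Cfg.case0 (h : Cfg G v x y z L E) (hr : E.card ≤ 1) (hxy : ¬ G.Adj x y) (hxz : ¬ G.Adj x z)
    (hyz : ¬ G.Adj y z) : False := by
  obtain ⟨t1, t2⟩ := h.totM
  have cx := h.h3x
  have cy := h.h3y
  have cz := h.h3z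
  by_cases hx : (G.neighborFinset x ∩ L).card = 3
  · by_cases hy : (G.neighborFinset y ∩ L).card = 3
    · exact h.swap13.pair0 hr (fun h => hyz h.symm) (fun h => hxz h.symm) (fun h => hxy h.symm) hy hx
    by_cases hz : (G.neighborFinset z ∩ L).card = 3
    · exact h.swap12.pair0 hr (fun h => hxy h.symm) hyz hxz hx hz
    exact h.swap13.case443 (by omega) (fun h => hyz h.symm) (fun h => hxz h.symm)
      (fun h => hxy h.symm) (by omega) (by omega) hx (by omega)
  · by_cases hy : (G.neighborFinset y ∩ L).card = 3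
    · by_cases hz : (G.neighborFinset z ∩ L).card = 3
      · exact h.pair0 hr hxy hxz hyz hy hz
      exact h.swap23.case443 (by omega) hxz hxy (fun h => hyz h.symm) (by omega) (by omega) hy
        (by omega)
    · exact h.case443 (by omega) hxy hxz hyz (by omega) (by omega) (by omega) (by omega)

end Pool.Agent.Lib.MP_270b6b_co.N3
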