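import Pool.Agent.Lib.MP_270b6b_co.N3.Cases

set_option autoImplicit false

namespace Pool.Agent.Lib.MP_270b6b_co.N3

open Finset

variable {V : Type*} [Fintype V] [DecidableEq V] {G : SimpleGraph V} [DecidableRel G.Adj]
variable {v x y z : V} {L : Finset V} {E : Finset (Sym2 V)}

lemma Cfg.noL (h : Cfg G v x y z L E) (hE : E.card = 0) : ∀ a b, a ∈ L → b ∈ L → ¬ G.Adj a b := by
  intro a b ha hb hab
  have := h.hE a b ha hb hab
  rw [card_eq_zero] at hE
  rw [hE] at this
  exact notMem_empty _ this

/-- one edge between the centres, `z` has four neighbours in `L` -/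
lemma Cfg.case1z (h : Cfg G v x y z L E) (hE : E.card = 0) (hxy : G.Adj x y) (hxz : ¬ G.Adj x z)
    (hyz : ¬ G.Adj y z) (hx : (G.neighborFinset x ∩ L).card = 3)
    (hy : (G.neighborFinset y ∩ L).card = 3)
    (hz : (G.neighborFinset z ∩ L).card = 4) (hM : (G.neighborFinset v ∩ L).card = 3) : False := by
  have sx : G.neighborFinset x ∩ L ⊆ G.neighborFinset v ∩ L :=
    S_sub_M fun a ha hva => h.swap13.g2' (by omega) hx ha hva (Or.inl fun h => hyz h.symm)
  have sy : G.neighborFinset y ∩ L ⊆ G.neighborFinset v ∩ L :=
    S_sub_M fun a ha hva => h.swap23.g2' (by omega) hy ha hva (Or.inl hxz)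
  have ex : G.neighborFinset x ∩ L = G.neighborFinset v ∩ L := eq_of_subset_of_card_le sx (by omega)
  have ey : G.neighborFinset y ∩ L = G.neighborFinset v ∩ L := eq_of_subset_of_card_le sy (by omega)
  have hxv : ∀ a ∈ L, ¬ G.Adj v a → ¬ G.Adj x a := by
    intro a ha hva hza
    have := mem_S hza ha
    rw [ex] at this
    exact hva (adj_of_mem this)
  by_cases hc : ∃ u, u ∈ G.neighborFinset v ∩ L ∧ u ∈ G.neighborFinset z ∩ L
  · obtain ⟨u, hu, huz⟩ := hc
    obtain ⟨a, ha, haM⟩ : ∃ a, a ∈ G.neighborFinset z ∩ L ∧ a ∉ G.neighborFinset v ∩ L := by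
      by_contra hcon
      push Not at hcon
      have := card_le_card
        (fun a ha => hcon a ha : G.neighborFinset z ∩ L ⊆ G.neighborFinset v ∩ L)
      omega
    have haL : a ∈ L := (mem_inter.1 ha).2
    have huL : u ∈ L := (mem_inter.1 hu).2
    have hva : ¬ G.Adj v a := fun hh => haM (mem_S hh haL)
    have hua : u ≠ a := fun hh => haM (hh ▸ hu)
    refine h.close {v, x, u, a} (by simp) (own4 G v x u a (Or.inr (Or.inr hva))
      (Or.inr (Or.inr (hxv a haL hva))) (Or.inr (Or.inr (h.noL hE u a huL haL)))
      (Or.inl fun h => hva h.symm)) (fun hx => absurd (by simp) hx) ?_ ?_ ?_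
    · intro _
      exact h.swap12.cside (by simp) (Or.inl (by simp)) (Or.inr hyz)
        (left3 hy.le (by rw [ey]; exact hu) (by simp))
    · intro _
      exact h.swap13.cside (by simp) (Or.inr fun h => hyz h.symm) (Or.inl (by simp))
        (left4 hz.le hua huz (by simp) ha (by simp))
    · exact h.lside0 (by simp) hE (by simp)
  · push Not at hc
    obtain ⟨u, hu⟩ : (G.neighborFinset v ∩ L).Nonempty := by rw [← card_pos]; omega
    obtain ⟨a, ha, b, hb, hab⟩ := one_lt_card.1 (by omega : 1 < (G.neighborFinset z ∩ L).card)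
    have haL : a ∈ L := (mem_inter.1 ha).2
    have hbL : b ∈ L := (mem_inter.1 hb).2
    have huL : u ∈ L := (mem_inter.1 hu).2
    have hva : ¬ G.Adj v a := fun hh => hc a (mem_S hh haL) ha
    have hvb : ¬ G.Adj v b := fun hh => hc b (mem_S hh hbL) hb
    have hxa := hxv a haL hva
    have hxb := hxv b hbL hvb
    have hua := h.noL hE u a huL haL
    have hub := h.noL hE u b huL hbL
    have hab' := h.noL hE a b haL hbL
    refine h.close {v, x, u, a, b} (by simp) ?_ (fun hx => absurd (by simp) hx) ?_ ?_ ?_
    · intro w hw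
      simp only [mem_insert, mem_singleton] at hw
      rcases hw with rfl | rfl | rfl | rfl | rfl
      · refine (card_le_card (t := {x, u}) ?_).trans card_le_two
        intro t ht
        simp only [mem_inter, SimpleGraph.mem_neighborFinset, mem_insert, mem_singleton] at ht ⊢
        rcases ht with ⟨h1, rfl | rfl | rfl | rfl | rfl⟩
        · exact absurd h1 G.irrefl
        · exact Or.inl rfl
        · exact Or.inr rfl
        · exact absurd h1 hva
        · exact absurd h1 hvb
      · refine (card_le_card (t := {v, u}) ?_).trans card_le_two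
        intro t ht
        simp only [mem_inter, SimpleGraph.mem_neighborFinset, mem_insert, mem_singleton] at ht ⊢
        rcases ht with ⟨h1, rfl | rfl | rfl | rfl | rfl⟩
        · exact Or.inl rfl
        · exact absurd h1 G.irrefl
        · exact Or.inr rfl
        · exact absurd h1 hxa
        · exact absurd h1 hxb
      · refine (card_le_card (t := {v, x}) ?_).trans card_le_two
        intro t ht
        simp only [mem_inter, SimpleGraph.mem_neighborFinset, mem_insert, mem_singleton] at ht ⊢
        rcases ht with ⟨h1, rfl | rfl | rfl | rfl | rfl⟩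
        · exact Or.inl rfl
        · exact Or.inr rfl
        · exact absurd h1 G.irrefl
        · exact absurd h1 hua
        · exact absurd h1 hub
      · refine (card_le_card (t := {v, v}) ?_).trans card_le_two
        intro t ht
        simp only [mem_inter, SimpleGraph.mem_neighborFinset, mem_insert, mem_singleton] at ht ⊢
        rcases ht with ⟨h1, rfl | rfl | rfl | rfl | rfl⟩
        · exact Or.inl rfl
        · exact absurd h1.symm hxa
        · exact absurd h1.symm hua
        · exact absurd h1 G.irrefl
        · exact absurd h1 hab'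
      · refine (card_le_card (t := {v, v}) ?_).trans card_le_two
        intro t ht
        simp only [mem_inter, SimpleGraph.mem_neighborFinset, mem_insert, mem_singleton] at ht ⊢
        rcases ht with ⟨h1, rfl | rfl | rfl | rfl | rfl⟩
        · exact Or.inl rfl
        · exact absurd h1.symm hxb
        · exact absurd h1.symm hub
        · exact absurd h1.symm hab'
        · exact absurd h1 G.irrefl
    · intro _
      exact h.swap12.cside (by simp) (Or.inl (by simp)) (Or.inr hyz)
        (left3 hy.le (by rw [ey]; exact hu) (by simp))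
    · intro _
      exact h.swap13.cside (by simp) (Or.inr fun h => hyz h.symm) (Or.inl (by simp))
        (left4 hz.le hab ha (by simp) hb (by simp))
    · exact h.lside0 (by simp) hE (by simp)

/-- one edge between the centres, one of its ends has four neighbours in `L` -/
lemma Cfg.case1x (h : Cfg G v x y z L E) (hE : E.card = 0) (_hxy : G.Adj x y) (hxz : ¬ G.Adj x z)
    (hyz : ¬ G.Adj y z) (hx : (G.neighborFinset x ∩ L).card = 4)
    (hy : (G.neighborFinset y ∩ L).card = 3)
    (hz : (G.neighborFinset z ∩ L).card = 3) (hM : (G.neighborFinset v ∩ L).card = 3) : False := by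
  have sy : G.neighborFinset y ∩ L ⊆ G.neighborFinset v ∩ L :=
    S_sub_M fun a ha hva => h.swap23.g2' (by omega) hy ha hva (Or.inl hxz)
  have ey : G.neighborFinset y ∩ L = G.neighborFinset v ∩ L := eq_of_subset_of_card_le sy (by omega)
  have hyv : ∀ a ∈ L, ¬ G.Adj v a → ¬ G.Adj y a := by
    intro a ha hva hza
    have := mem_S hza ha
    rw [ey] at this
    exact hva (adj_of_mem this)
  have hfree : ∀ a ∈ G.neighborFinset z ∩ L, ¬ G.Adj v a := by
    intro a ha hva
    refine h.g3 (by omega) hyz hy hz a ?_ ha
    rw [ey]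
    exact mem_S hva (mem_inter.1 ha).2
  have hzx : ∀ a ∈ G.neighborFinset z ∩ L, G.Adj x a := by
    intro a ha
    by_contra hxa
    exact h.g2' (by omega) hz ha (hfree a ha)
      (Or.inr ⟨hxa, hyv a (mem_inter.1 ha).2 (hfree a ha)⟩)
  obtain ⟨a, ha, b, hb, hab⟩ := one_lt_card.1 (by omega : 1 < (G.neighborFinset z ∩ L).card)
  have haL : a ∈ L := (mem_inter.1 ha).2
  have hbL : b ∈ L := (mem_inter.1 hb).2
  have hva := hfree a ha
  have hvb := hfree b hb
  refine h.close {v, y, a, b} (by simp) (own4 G v y a b (Or.inr (Or.inl hva))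
    (Or.inr (Or.inl (hyv a haL hva))) (Or.inl fun h => hva h.symm)
    (Or.inl fun h => hvb h.symm)) ?_ (fun hx => absurd (by simp) hx) ?_ ?_
  · intro _
    exact h.cside (by simp) (Or.inl (by simp)) (Or.inr hxz)
      (left4 hx.le hab (mem_S (hzx a ha) haL) (by simp) (mem_S (hzx b hb) hbL) (by simp))
  · intro _
    exact h.swap13.cside (by simp) (Or.inl (by simp)) (Or.inr fun h => hxz h.symm)
      (left3 hz.le ha (by simp))
  · exact h.swap12.lside0 (by simp) hE (by simp)

/-- one edge between the centres -/
lemma Cfg.case1 (h : Cfg G v x y z L E) (hxy : G.Adj x y) (hxz : ¬ G.Adj x z)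
    (hyz : ¬ G.Adj y z) : False := by
  obtain ⟨t1, t2⟩ := h.totM
  have cx := h.h3x
  have cy := h.h3y
  have cz := h.h3z
  rw [ee_one G hxy] at t2
  by_cases hx : (G.neighborFinset x ∩ L).card = 3
  · by_cases hy : (G.neighborFinset y ∩ L).card = 3
    · by_cases hz : (G.neighborFinset z ∩ L).card = 3
      · have hr : E.card ≤ 1 := by omega
        have sx : G.neighborFinset x ∩ L ⊆ G.neighborFinset v ∩ L :=
          S_sub_M fun a ha hva => h.swap13.g2' hr hx ha hva (Or.inl fun h => hyz h.symm)
        have sy : G.neighborFinset y ∩ L ⊆ G.neighborFinset v ∩ L :=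
          S_sub_M fun a ha hva => h.swap23.g2' hr hy ha hva (Or.inl hxz)
        have sz : G.neighborFinset z ∩ L ⊆ G.neighborFinset v ∩ L := by
          refine S_sub_M fun a ha hva => h.g2' hr hz ha hva (Or.inr ⟨?_, ?_⟩)
          · intro hxa
            exact hva (adj_of_mem (sx (mem_S hxa (mem_inter.1 ha).2)))
          · intro hya
            exact hva (adj_of_mem (sy (mem_S hya (mem_inter.1 ha).2)))
        obtain ⟨u, h1, h2⟩ := meet sx sz (by omega)
        exact h.swap12.g3 hr hxz hx hz u h1 h2
      · exact h.case1z (by omega) hxy hxz hyz hx hy (by omega) (by omega)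
    · exact h.swap12.case1x (by omega) hxy.symm hyz hxz (by omega) hx (by omega) (by omega)
  · exact h.case1x (by omega) hxy hxz hyz (by omega) (by omega) (by omega) (by omega)

/-- two edges between the centres -/
lemma Cfg.case2 (h : Cfg G v x y z L E) (hxy : G.Adj x y) (hxz : G.Adj x z)
    (hyz : ¬ G.Adj y z) : False := by
  obtain ⟨t1, t2⟩ := h.totM
  have cx := h.h3x
  have cy := h.h3y
  have cz := h.h3z
  rw [ee_one G hxy, ee_one G hxz] at t2
  have hr : E.card ≤ 1 := by omega
  have hx : (G.neighborFinset x ∩ L).card = 3 := by omega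
  have hy : (G.neighborFinset y ∩ L).card = 3 := by omega
  have hz : (G.neighborFinset z ∩ L).card = 3 := by omega
  have sx : G.neighborFinset x ∩ L ⊆ G.neighborFinset v ∩ L :=
    S_sub_M fun a ha hva => h.swap13.g2' hr hx ha hva (Or.inl fun h => hyz h.symm)
  have hxv : ∀ a ∈ L, ¬ G.Adj v a → ¬ G.Adj x a := by
    intro a ha hva hza
    exact hva (adj_of_mem (sx (mem_S hza ha)))
  have sy : G.neighborFinset y ∩ L ⊆ G.neighborFinset v ∩ L := by
    refine S_sub_M fun a ha hva => h.swap23.g2' hr hy ha hva
      (Or.inr ⟨hxv a (mem_inter.1 ha).2 hva, ?_⟩)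
    intro hza
    exact h.g3 hr hyz hy hz a ha (mem_S hza (mem_inter.1 ha).2)
  have sz : G.neighborFinset z ∩ L ⊆ G.neighborFinset v ∩ L := by
    refine S_sub_M fun a ha hva => h.g2' hr hz ha hva
      (Or.inr ⟨hxv a (mem_inter.1 ha).2 hva, ?_⟩)
    intro hya
    exact h.g3 hr hyz hy hz a (mem_S hya (mem_inter.1 ha).2) ha
  obtain ⟨u, h1, h2⟩ := meet sy sz (by omega)
  exact h.g3 hr hyz hy hz u h1 h2

/-- two edges in `L`: every neighbour of `z` in `L` is a neighbour of the hub -/
lemma Cfg.r2z (h : Cfg G v x y z L E) (hE : E.card = 2) :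
    G.neighborFinset z ∩ L ⊆ G.neighborFinset v ∩ L := by
  -- a vertex with two neighbours in `L`
  have key : ∀ {x y z : V}, Cfg G v x y z L E → ∀ a ∈ G.neighborFinset z ∩ L, ¬ G.Adj v a →
      ∃ w ∈ L, w ≠ a ∧ G.Adj z w ∧ 2 ≤ (G.neighborFinset w ∩ L).card := by
    intro x y z h a ha hva
    obtain ⟨t1, t2⟩ := h.totM
    have cx := h.h3x
    have cy := h.h3y
    have cz := h.h3z
    have hxy : ¬ G.Adj x y := by
      intro hh
      rw [ee_one G hh] at t2
      omega
    by_contra hcon
    push Not at hcon
    refine h.g2 (by omega) ha hva (Or.inl hxy) fun w hw hwa hwz => ?_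
    have := hcon w hw hwa hwz.symm
    exact (card_le_card sdiff_subset).trans (by omega)
  -- its two edges are all the edges in `L`
  have uniq : ∀ w ∈ L, 2 ≤ (G.neighborFinset w ∩ L).card → ∀ t ∈ L, t ≠ w →
      G.neighborFinset t ∩ L ⊆ {w} := by
    intro w hw h2 t ht htw s hs
    have hsL : s ∈ L := (mem_inter.1 hs).2
    have e1 : s(t, s) ∈ E := h.hE t s ht hsL (adj_of_mem hs)
    have himg : (G.neighborFinset w ∩ L).image (fun b => s(w, b)) ⊆ E := by
      intro e he
      rw [mem_image] at he
      obtain ⟨b, hb, rfl⟩ := he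
      exact h.hE w b hw (mem_inter.1 hb).2 (adj_of_mem hb)
    have hcard : ((G.neighborFinset w ∩ L).image (fun b => s(w, b))).card =
        (G.neighborFinset w ∩ L).card :=
      card_image_of_injective _ fun b c hbc => Sym2.congr_right.1 hbc
    have heq := eq_of_subset_of_card_le himg (by omega)
    rw [← heq, mem_image] at e1
    obtain ⟨b, _, hb⟩ := e1
    rw [Sym2.eq_iff] at hb
    rw [mem_singleton]
    rcases hb with ⟨h1, _⟩ | ⟨h1, _⟩
    · exact absurd h1.symm htw
    · exact h1.symm
  refine S_sub_M fun a ha hva => ?_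
  obtain ⟨t1, t2⟩ := h.totM
  have cx := h.h3x
  have cy := h.h3y
  have cz := h.h3z
  have hxy : ¬ G.Adj x y := by
    intro hh
    rw [ee_one G hh] at t2
    omega
  obtain ⟨w, hw, hwa, hzw, hw2⟩ := key h a ha hva
  have hwv : w ≠ v := ((h.hL w).1 hw).1
  -- `w` is not adjacent to the other centres
  have hdeg := h.h2 hE w hwv
  have hnx : ¬ G.Adj w x ∧ ¬ G.Adj w y := by
    have hsub : ∀ c, c ≠ v → c ∉ L → c ≠ z → G.Adj w c → 4 ≤ (G.neighborFinset w \ {v}).card := by
      intro c hcv hcL hcz hwc
      have h1 : insert c (insert z (G.neighborFinset w ∩ L)) ⊆ G.neighborFinset w \ {v} := by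
        intro t ht
        simp only [mem_insert, mem_inter, SimpleGraph.mem_neighborFinset] at ht
        simp only [mem_sdiff, SimpleGraph.mem_neighborFinset, mem_singleton]
        rcases ht with rfl | rfl | ht
        · exact ⟨hwc, hcv⟩
        · exact ⟨hzw.symm, h.hvz.symm⟩
        · exact ⟨ht.1, ((h.hL t).1 ht.2).1⟩
      have h2 : (insert c (insert z (G.neighborFinset w ∩ L))).card =
          (G.neighborFinset w ∩ L).card + 2 := by
        rw [card_insert_of_notMem, card_insert_of_notMem]
        · intro hh
          exact h.swap13.xL (mem_inter.1 hh).2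
        · intro hh
          rw [mem_insert] at hh
          rcases hh with hh | hh
          · exact hcz hh
          · exact hcL (mem_inter.1 hh).2
      have := card_le_card h1
      omega
    constructor
    · intro hh
      have := hsub x h.hvx.symm h.xL h.hxz hh
      omega
    · intro hh
      have := hsub y h.hvy.symm h.swap12.xL h.hyz hh
      omega
  -- `w` is a neighbour of the hub
  have hvw : G.Adj v w := by
    by_contra hvw
    refine h.g2 (by omega) (mem_S hzw hw) hvw (Or.inl hxy) fun t ht htw _ => ?_
    have := uniq w hw hw2 t ht htw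
    rw [sdiff_eq_empty_iff_subset.2 this, card_empty]
    omega
  -- the other centres have only neighbours of the hub
  have other : ∀ {x y z : V}, Cfg G v x y z L E → ¬ G.Adj w z →
      G.neighborFinset z ∩ L ⊆ G.neighborFinset v ∩ L := by
    intro x y z h hwz
    refine S_sub_M fun a ha hva => ?_
    obtain ⟨w', hw', _, hzw', hw2'⟩ := key h a ha hva
    by_cases hww : w' = w
    · rw [hww] at hzw'
      exact hwz hzw'.symm
    · have := card_le_card (uniq w hw hw2 w' hw' hww)
      rw [card_singleton] at this
      omega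
  have sx := other h.swap13 hnx.1
  have ex : G.neighborFinset x ∩ L = G.neighborFinset v ∩ L :=
    eq_of_subset_of_card_le sx (by omega)
  have := mem_S hvw hw
  rw [← ex] at this
  exact hnx.1 (adj_of_mem this).symm

lemma Cfg.caseR2 (h : Cfg G v x y z L E) (hE : E.card = 2) : False := by
  obtain ⟨t1, t2⟩ := h.totM
  have cx := h.h3x
  have cy := h.h3y
  have cz := h.h3z
  have hyz : ¬ G.Adj y z := by
    intro hh
    rw [ee_one G hh] at t2
    omega
  have ez : G.neighborFinset z ∩ L = G.neighborFinset v ∩ L :=
    eq_of_subset_of_card_le (h.r2z hE) (by omega)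
  have ey : G.neighborFinset y ∩ L = G.neighborFinset v ∩ L :=
    eq_of_subset_of_card_le (h.swap23.r2z hE) (by omega)
  have ex : G.neighborFinset x ∩ L = G.neighborFinset v ∩ L :=
    eq_of_subset_of_card_le (h.swap13.r2z hE) (by omega)
  obtain ⟨u, hu⟩ : (G.neighborFinset v ∩ L).Nonempty := by rw [← card_pos]; omega
  refine h.close {v, x, u} (by simp) (own3 G v x u) (fun hx => absurd (by simp) hx) ?_ ?_ ?_
  · intro _
    exact h.swap12.cside (by simp) (Or.inl (by simp)) (Or.inr hyz)
      (left3 (by omega) (by rw [ey]; exact hu) (by simp))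
  · intro _
    exact h.swap13.cside (by simp) (Or.inr fun h => hyz h.symm) (Or.inl (by simp))
      (left3 (by omega) (by rw [ez]; exact hu) (by simp))
  · intro w hw hwA
    by_cases hvw : G.Adj v w
    · have hwM := mem_S hvw hw
      have hwx : G.Adj x w := adj_of_mem (by rw [ex]; exact hwM)
      have hwy : G.Adj y w := adj_of_mem (by rw [ey]; exact hwM)
      have hwz : G.Adj z w := adj_of_mem (by rw [ez]; exact hwM)
      have hdeg := h.h2 hE w (((h.hL w).1 hw).1)
      have h1 : ({x, y, z} : Finset V) ∪ (G.neighborFinset w ∩ L) ⊆ G.neighborFinset w \ {v} := by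
        intro t ht
        simp only [mem_union, mem_insert, mem_singleton, mem_inter,
          SimpleGraph.mem_neighborFinset] at ht
        simp only [mem_sdiff, SimpleGraph.mem_neighborFinset, mem_singleton]
        rcases ht with (rfl | rfl | rfl) | ht
        · exact ⟨hwx.symm, h.hvx.symm⟩
        · exact ⟨hwy.symm, h.hvy.symm⟩
        · exact ⟨hwz.symm, h.hvz.symm⟩
        · exact ⟨ht.1, ((h.hL t).1 ht.2).1⟩
      have h2 : Disjoint ({x, y, z} : Finset V) (G.neighborFinset w ∩ L) := by
        rw [disjoint_left]
        intro t ht h2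
        simp only [mem_inter, mem_insert, mem_singleton, h.hL] at ht h2
        tauto
      have h3 : ({x, y, z} : Finset V).card = 3 :=
        card_eq_three.2 ⟨x, y, z, h.hxy, h.hxz, h.hyz, rfl⟩
      have h4 := card_le_card h1
      rw [card_union_of_disjoint h2, h3] at h4
      have h5 : G.neighborFinset w ∩ L = ∅ := by rw [← card_eq_zero]; omega
      exact h.lside1 (by simp) (by simp) (by rw [h5, empty_sdiff])
    · refine h.lsideE (by simp) hw (Or.inl (by simp)) (Or.inr fun hh => hvw ?_)
        (Or.inr fun hh => hvw ?_)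
      · have := mem_S hh.symm hw
        rw [ey] at this
        exact adj_of_mem this
      · have := mem_S hh.symm hw
        rw [ez] at this
        exact adj_of_mem this

/-- there is no such configuration -/
theorem Cfg.false (h : Cfg G v x y z L E) : False := by
  have hE := h.Ecard
  by_cases hE2 : E.card = 2
  · exact h.caseR2 hE2
  have hr : E.card ≤ 1 := by omega
  by_cases hxy : G.Adj x y
  · by_cases hxz : G.Adj x z
    · by_cases hyz : G.Adj y z
      · obtain ⟨t1, t2⟩ := h.totM
        have cx := h.h3x
        have cy := h.h3y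
        have cz := h.h3z
        rw [ee_one G hxy, ee_one G hxz, ee_one G hyz] at t2
        omega
      · exact h.case2 hxy hxz hyz
    · by_cases hyz : G.Adj y z
      · exact h.swap12.case2 hxy.symm hyz hxz
      · exact h.case1 hxy hxz hyz
  · by_cases hxz : G.Adj x z
    · by_cases hyz : G.Adj y z
      · exact h.swap13.case2 hyz.symm hxz.symm (fun h => hxy h.symm)
      · exact h.swap23.case1 hxz hxy (fun h => hyz h.symm)
    · by_cases hyz : G.Adj y z
      · exact h.swap13.case1 hyz.symm (fun h => hxz h.symm) (fun h => hxy h.symm)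
      · exact h.case0 hr hxy hxz hyz

end Pool.Agent.Lib.MP_270b6b_co.N3
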