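import Mathlib

set_option autoImplicit false

namespace Pool.Agent.Lib.MP_270b6b_co.N3

open Finset

variable {V : Type*} [Fintype V] [DecidableEq V] (G : SimpleGraph V) [DecidableRel G.Adj]

/-- every vertex has at most two neighbours on its own side of the partition `A`, complement of `A` -/
def Good (A : Finset V) : Prop :=
  (∀ x ∈ A, (G.neighborFinset x ∩ A).card ≤ 2) ∧ ∀ y ∉ A, (G.neighborFinset y \ A).card ≤ 2

/-- three vertices: every one has at most two neighbours among them -/
lemma own3 (p q r : V) : ∀ w ∈ ({p, q, r} : Finset V),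
    (G.neighborFinset w ∩ {p, q, r}).card ≤ 2 := by
  have key : ∀ w a b c : V, w = a → (G.neighborFinset w ∩ {a, b, c}).card ≤ 2 := by
    intro w a b c h
    subst h
    have : G.neighborFinset w ∩ {w, b, c} ⊆ {b, c} := by
      intro t ht
      simp only [mem_inter, SimpleGraph.mem_neighborFinset, mem_insert, mem_singleton] at ht ⊢
      rcases ht with ⟨h1, rfl | h2⟩
      · exact absurd h1 (G.irrefl)
      · exact h2
    exact (card_le_card this).trans card_le_two
  intro w hw
  simp only [mem_insert, mem_singleton] at hw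
  rcases hw with h | h | h
  · exact key w p q r h
  · have := key w q p r h
    rwa [show ({p, q, r} : Finset V) = {q, p, r} by ext t; simp; tauto]
  · have := key w r p q h
    rwa [show ({p, q, r} : Finset V) = {r, p, q} by ext t; simp; tauto]

/-- four vertices, each one not adjacent to some other one -/
lemma own4 (p q r s : V) (hp : ¬ G.Adj p q ∨ ¬ G.Adj p r ∨ ¬ G.Adj p s)
    (hq : ¬ G.Adj q p ∨ ¬ G.Adj q r ∨ ¬ G.Adj q s)
    (hr : ¬ G.Adj r p ∨ ¬ G.Adj r q ∨ ¬ G.Adj r s)
    (hs : ¬ G.Adj s p ∨ ¬ G.Adj s q ∨ ¬ G.Adj s r) :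
    ∀ w ∈ ({p, q, r, s} : Finset V), (G.neighborFinset w ∩ {p, q, r, s}).card ≤ 2 := by
  have key : ∀ w a b c : V, (¬ G.Adj w a ∨ ¬ G.Adj w b ∨ ¬ G.Adj w c) →
      (G.neighborFinset w ∩ {w, a, b, c}).card ≤ 2 := by
    intro w a b c h
    rcases h with h | h | h
    · have : G.neighborFinset w ∩ {w, a, b, c} ⊆ {b, c} := by
        intro t ht
        simp only [mem_inter, SimpleGraph.mem_neighborFinset, mem_insert, mem_singleton] at ht ⊢
        rcases ht with ⟨h1, rfl | rfl | h2⟩
        · exact absurd h1 (G.irrefl)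
        · exact absurd h1 h
        · exact h2
      exact (card_le_card this).trans card_le_two
    · have : G.neighborFinset w ∩ {w, a, b, c} ⊆ {a, c} := by
        intro t ht
        simp only [mem_inter, SimpleGraph.mem_neighborFinset, mem_insert, mem_singleton] at ht ⊢
        rcases ht with ⟨h1, rfl | rfl | rfl | rfl⟩
        · exact absurd h1 (G.irrefl)
        · exact Or.inl rfl
        · exact absurd h1 h
        · exact Or.inr rfl
      exact (card_le_card this).trans card_le_two
    · have : G.neighborFinset w ∩ {w, a, b, c} ⊆ {a, b} := by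
        intro t ht
        simp only [mem_inter, SimpleGraph.mem_neighborFinset, mem_insert, mem_singleton] at ht ⊢
        rcases ht with ⟨h1, rfl | rfl | rfl | rfl⟩
        · exact absurd h1 (G.irrefl)
        · exact Or.inl rfl
        · exact Or.inr rfl
        · exact absurd h1 h
      exact (card_le_card this).trans card_le_two
  intro w hw
  simp only [mem_insert, mem_singleton] at hw
  rcases hw with h | h | h | h
  · subst h
    exact key w q r s hp
  · subst h
    have := key w p r s hq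
    rwa [insert_comm p w]
  · subst h
    have := key w p q s hr
    rwa [insert_comm q w, insert_comm p w]
  · subst h
    have := key w p q r hs
    rwa [pair_comm r w, insert_comm q w, insert_comm p w]

/-- `1` for an edge, `0` otherwise -/
def ee (a b : V) : ℕ := if G.Adj a b then 1 else 0

omit [Fintype V] [DecidableEq V] in
lemma ee_comm (a b : V) : ee G a b = ee G b a := by
  unfold ee
  simp only [G.adj_comm a b]

omit [Fintype V] [DecidableEq V] in
lemma ee_one {a b : V} (h : G.Adj a b) : ee G a b = 1 := by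
  unfold ee; rw [if_pos h]

omit [Fintype V] [DecidableEq V] in
lemma ee_zero {a b : V} (h : ¬ G.Adj a b) : ee G a b = 0 := by
  unfold ee; rw [if_neg h]

/-- the configuration: hub `v`, three centres `x`, `y`, `z`, the other vertices `L`, and the edges `E`
inside `L`; there is no good partition -/
structure Cfg (v x y z : V) (L : Finset V) (E : Finset (Sym2 V)) : Prop where
  hvx : v ≠ x
  hvy : v ≠ y
  hvz : v ≠ z
  hxy : x ≠ y
  hxz : x ≠ z
  hyz : y ≠ z
  hL : ∀ w, w ∈ L ↔ w ≠ v ∧ w ≠ x ∧ w ≠ y ∧ w ≠ z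
  hE : ∀ a b, a ∈ L → b ∈ L → G.Adj a b → s(a, b) ∈ E
  hN : 6 ≤ (G.neighborFinset v).card
  h3x : 3 ≤ (G.neighborFinset x ∩ L).card
  h3y : 3 ≤ (G.neighborFinset y ∩ L).card
  h3z : 3 ≤ (G.neighborFinset z ∩ L).card
  tot : (G.neighborFinset v).card + (G.neighborFinset x ∩ L).card + (G.neighborFinset y ∩ L).card +
    (G.neighborFinset z ∩ L).card + ee G x y + ee G x z + ee G y z + E.card ≤ 17
  h2 : E.card = 2 → ∀ w, w ≠ v → (G.neighborFinset w \ {v}).card ≤ 3
  bad : ∀ A, ¬ Good G A

variable {G} {v x y z : V} {L : Finset V} {E : Finset (Sym2 V)}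

lemma Cfg.swap12 (h : Cfg G v x y z L E) : Cfg G v y x z L E where
  hvx := h.hvy
  hvy := h.hvx
  hvz := h.hvz
  hxy := h.hxy.symm
  hxz := h.hyz
  hyz := h.hxz
  hL := fun w => by rw [h.hL]; tauto
  hE := h.hE
  hN := h.hN
  h3x := h.h3y
  h3y := h.h3x
  h3z := h.h3z
  tot := by
    have := h.tot
    rw [ee_comm G y x]
    omega
  h2 := h.h2
  bad := h.bad

lemma Cfg.swap23 (h : Cfg G v x y z L E) : Cfg G v x z y L E where
  hvx := h.hvx
  hvy := h.hvz
  hvz := h.hvy
  hxy := h.hxz
  hxz := h.hxy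
  hyz := h.hyz.symm
  hL := fun w => by rw [h.hL]; tauto
  hE := h.hE
  hN := h.hN
  h3x := h.h3x
  h3y := h.h3z
  h3z := h.h3y
  tot := by
    have := h.tot
    rw [ee_comm G z y]
    omega
  h2 := h.h2
  bad := h.bad

lemma Cfg.swap13 (h : Cfg G v x y z L E) : Cfg G v z y x L E :=
  h.swap12.swap23.swap12

lemma Cfg.vL (h : Cfg G v x y z L E) : v ∉ L := by
  intro hv
  exact ((h.hL v).1 hv).1 rfl

lemma Cfg.xL (h : Cfg G v x y z L E) : x ∉ L := by
  intro hv
  exact ((h.hL x).1 hv).2.1 rfl

/-- the degree inside `L` is at most the number of the edges in `E` -/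
lemma Cfg.rdeg (h : Cfg G v x y z L E) {w : V} (hw : w ∈ L) :
    (G.neighborFinset w ∩ L).card ≤ E.card := by
  apply card_le_card_of_injOn (fun b => s(w, b))
  · intro b hb
    simp only [coe_inter, Set.mem_inter_iff, mem_coe, SimpleGraph.mem_neighborFinset] at hb
    exact h.hE w b hw hb.2 hb.1
  · intro b _ c _ hbc
    exact Sym2.congr_right.1 hbc

/-- tool: the conditions for a good partition with `v ∈ A` -/
lemma Cfg.close (h : Cfg G v x y z L E) (A : Finset V) (hv : v ∈ A)
    (hA : ∀ w ∈ A, (G.neighborFinset w ∩ A).card ≤ 2)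
    (hx : x ∉ A → (G.neighborFinset x \ A).card ≤ 2)
    (hy : y ∉ A → (G.neighborFinset y \ A).card ≤ 2)
    (hz : z ∉ A → (G.neighborFinset z \ A).card ≤ 2)
    (hw : ∀ w ∈ L, w ∉ A → (G.neighborFinset w \ A).card ≤ 2) : False := by
  apply h.bad A
  refine ⟨hA, fun w hwA => ?_⟩
  by_cases h1 : w = x
  · subst h1; exact hx hwA
  by_cases h2 : w = y
  · subst h2; exact hy hwA
  by_cases h3 : w = z
  · subst h3; exact hz hwA
  have h4 : w ≠ v := fun h => hwA (h ▸ hv)
  exact hw w ((h.hL w).2 ⟨h4, h1, h2, h3⟩) hwA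

/-- neighbours of a centre outside `A` -/
lemma Cfg.cside (h : Cfg G v x y z L E) {A : Finset V} (hv : v ∈ A)
    (hy : y ∈ A ∨ ¬ G.Adj x y) (hz : z ∈ A ∨ ¬ G.Adj x z) {k : ℕ}
    (hk : ((G.neighborFinset x ∩ L) \ A).card ≤ k) : (G.neighborFinset x \ A).card ≤ k := by
  refine (card_le_card ?_).trans hk
  intro w hw
  simp only [mem_sdiff, mem_inter, SimpleGraph.mem_neighborFinset] at hw ⊢
  refine ⟨⟨hw.1, (h.hL w).2 ⟨?_, ?_, ?_, ?_⟩⟩, hw.2⟩
  · rintro rfl; exact hw.2 hv
  · rintro rfl; exact G.irrefl hw.1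
  · rintro rfl; exact hy.elim (fun h => hw.2 h) (fun h => h hw.1)
  · rintro rfl; exact hz.elim (fun h => hw.2 h) (fun h => h hw.1)

omit [Fintype V] in
lemma left3 {S A : Finset V} (hS : S.card ≤ 3) {a : V} (ha : a ∈ S) (haA : a ∈ A) :
    (S \ A).card ≤ 2 := by
  have : S \ A ⊆ S.erase a := by
    intro t ht
    simp only [mem_sdiff, mem_erase] at ht ⊢
    exact ⟨fun h => ht.2 (h ▸ haA), ht.1⟩
  have h1 := card_le_card this
  rw [card_erase_of_mem ha] at h1
  omega

omit [Fintype V] in
lemma left4 {S A : Finset V} (hS : S.card ≤ 4) {a b : V} (hab : a ≠ b) (ha : a ∈ S) (haA : a ∈ A)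
    (hb : b ∈ S) (hbA : b ∈ A) : (S \ A).card ≤ 2 := by
  have : S \ A ⊆ (S.erase a).erase b := by
    intro t ht
    simp only [mem_sdiff, mem_erase] at ht ⊢
    exact ⟨fun h => ht.2 (h ▸ hbA), fun h => ht.2 (h ▸ haA), ht.1⟩
  have h1 := card_le_card this
  rw [card_erase_of_mem (mem_erase.2 ⟨hab.symm, hb⟩), card_erase_of_mem ha] at h1
  omega

/-- vertices of `L` outside `A`, no edges in `L`, one centre in `A` -/
lemma Cfg.lside0 (h : Cfg G v x y z L E) {A : Finset V} (hv : v ∈ A) (hE : E.card = 0)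
    (hA : x ∈ A) : ∀ w ∈ L, w ∉ A → (G.neighborFinset w \ A).card ≤ 2 := by
  intro w hw hwA
  have h0 := h.rdeg hw
  rw [hE, Nat.le_zero, card_eq_zero] at h0
  have : G.neighborFinset w \ A ⊆ {y, z} := by
    intro t ht
    simp only [mem_sdiff, SimpleGraph.mem_neighborFinset, mem_insert, mem_singleton] at ht ⊢
    by_contra hcon
    push Not at hcon
    have htL : t ∈ L := by
      rw [h.hL]
      refine ⟨?_, ?_, hcon.1, hcon.2⟩
      · rintro rfl; exact ht.2 hv
      · rintro rfl; exact ht.2 hA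
    have : t ∈ G.neighborFinset w ∩ L := by
      rw [mem_inter, SimpleGraph.mem_neighborFinset]; exact ⟨ht.1, htL⟩
    rw [h0] at this
    exact absurd this (notMem_empty _)
  exact (card_le_card this).trans card_le_two

/-- vertices of `L` outside `A`, two centres in `A` -/
lemma Cfg.lside2 (h : Cfg G v x y z L E) {A : Finset V} (hv : v ∈ A)
    (hx : x ∈ A) (hy : y ∈ A) {w : V}
    (hr : ((G.neighborFinset w ∩ L) \ A).card ≤ 1) : (G.neighborFinset w \ A).card ≤ 2 := by
  have : G.neighborFinset w \ A ⊆ insert z ((G.neighborFinset w ∩ L) \ A) := by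
    intro t ht
    simp only [mem_sdiff, SimpleGraph.mem_neighborFinset, mem_insert, mem_inter] at ht ⊢
    by_cases htz : t = z
    · exact Or.inl htz
    · right
      refine ⟨⟨ht.1, ?_⟩, ht.2⟩
      rw [h.hL]
      refine ⟨?_, ?_, ?_, htz⟩
      · rintro rfl; exact ht.2 hv
      · rintro rfl; exact ht.2 hx
      · rintro rfl; exact ht.2 hy
  refine (card_le_card this).trans ((card_insert_le _ _).trans ?_)
  omega

/-- vertices of `L` outside `A`, one centre in `A`, and no neighbours in `L` outside `A`, or not adjacent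
to a centre -/
lemma Cfg.lside1 (h : Cfg G v x y z L E) {A : Finset V} (hv : v ∈ A)
    (hx : x ∈ A) {w : V}
    (hr : (G.neighborFinset w ∩ L) \ A = ∅) : (G.neighborFinset w \ A).card ≤ 2 := by
  have : G.neighborFinset w \ A ⊆ {y, z} := by
    intro t ht
    simp only [mem_sdiff, SimpleGraph.mem_neighborFinset, mem_insert, mem_singleton] at ht ⊢
    by_contra hcon
    push Not at hcon
    have htL : t ∈ L := by
      rw [h.hL]
      refine ⟨?_, ?_, hcon.1, hcon.2⟩
      · rintro rfl; exact ht.2 hv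
      · rintro rfl; exact ht.2 hx
    have : t ∈ (G.neighborFinset w ∩ L) \ A := by
      rw [mem_sdiff, mem_inter, SimpleGraph.mem_neighborFinset]; exact ⟨⟨ht.1, htL⟩, ht.2⟩
    rw [hr] at this
    exact absurd this (notMem_empty _)
  exact (card_le_card this).trans card_le_two

/-- vertices of `L` outside `A`, one centre in `A`, not adjacent to another centre -/
lemma Cfg.lside1' (h : Cfg G v x y z L E) {A : Finset V} (hv : v ∈ A)
    (hx : x ∈ A) {w : V} (hwz : ¬ G.Adj w z)
    (hr : ((G.neighborFinset w ∩ L) \ A).card ≤ 1) : (G.neighborFinset w \ A).card ≤ 2 := by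
  have : G.neighborFinset w \ A ⊆ insert y ((G.neighborFinset w ∩ L) \ A) := by
    intro t ht
    simp only [mem_sdiff, SimpleGraph.mem_neighborFinset, mem_insert, mem_inter] at ht ⊢
    by_cases hty : t = y
    · exact Or.inl hty
    · right
      refine ⟨⟨ht.1, ?_⟩, ht.2⟩
      rw [h.hL]
      refine ⟨?_, ?_, hty, ?_⟩
      · rintro rfl; exact ht.2 hv
      · rintro rfl; exact ht.2 hx
      · rintro rfl; exact hwz ht.1
  refine (card_le_card this).trans ((card_insert_le _ _).trans ?_)
  omega

end Pool.Agent.Lib.MP_270b6b_co.N3
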