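import Pool.Agent.Lib.MP_270b6b_co.N3.Cases2

set_option autoImplicit false

namespace Pool.Agent.Lib.MP_270b6b_co.N3

open Finset

variable {V : Type*} [Fintype V] [DecidableEq V] (G : SimpleGraph V) [DecidableRel G.Adj]

/-- the ordered pairs of adjacent vertices on the same side -/
def P (A : Finset V) : Finset (V × V) :=
  univ.filter fun p => G.Adj p.1 p.2 ∧ (p.1 ∈ A ↔ p.2 ∈ A)

/-- maximum cut: at a minimum of the number of edges inside the parts every vertex has at most half of its
neighbours on its own side -/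
lemma maxcut : ∃ A : Finset V,
    (∀ x ∈ A, (G.neighborFinset x ∩ A).card ≤ (G.neighborFinset x \ A).card) ∧
    (∀ x ∉ A, (G.neighborFinset x \ A).card ≤ (G.neighborFinset x ∩ A).card) := by
  obtain ⟨A, _, hA⟩ := Finset.exists_min_image (univ : Finset (Finset V)) (fun A => (P G A).card)
    ⟨∅, mem_univ _⟩
  have key : ∀ x : V, ∀ B : Finset V, (∀ y, y ≠ x → (y ∈ B ↔ y ∈ A)) → (x ∈ B ↔ ¬ x ∈ A) →
      ((univ.filter fun y => G.Adj x y ∧ (x ∈ A ↔ y ∈ A)).card ≤
        (univ.filter fun y => G.Adj x y ∧ (x ∈ B ↔ y ∈ B)).card) := by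
    intro x B hB hx
    have hle := hA B (mem_univ _)
    -- split the pairs
    have split : ∀ C : Finset V, (P G C).card =
        2 * (univ.filter fun y => G.Adj x y ∧ (x ∈ C ↔ y ∈ C)).card +
        ((P G C).filter fun p => p.1 ≠ x ∧ p.2 ≠ x).card := by
      intro C
      have e1 := card_filter_add_card_filter_not (s := P G C) (fun p => p.1 = x)
      have e2 := card_filter_add_card_filter_not (s := (P G C).filter fun p => ¬ p.1 = x)
        (fun p => p.2 = x)
      have e3 : ((P G C).filter fun p => p.1 = x) =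
          (univ.filter fun y => G.Adj x y ∧ (x ∈ C ↔ y ∈ C)).image (fun y => (x, y)) := by
        ext ⟨a, b⟩
        simp only [P, mem_filter, mem_univ, true_and, mem_image, Prod.mk.injEq]
        constructor
        · rintro ⟨⟨h1, h2⟩, rfl⟩
          exact ⟨b, ⟨h1, h2⟩, rfl, rfl⟩
        · rintro ⟨y, ⟨h1, h2⟩, rfl, rfl⟩
          exact ⟨⟨h1, h2⟩, rfl⟩
      have e4 : (((P G C).filter fun p => ¬ p.1 = x).filter fun p => p.2 = x) =
          (univ.filter fun y => G.Adj x y ∧ (x ∈ C ↔ y ∈ C)).image (fun y => (y, x)) := by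
        ext ⟨a, b⟩
        simp only [P, mem_filter, mem_univ, true_and, mem_image, Prod.mk.injEq]
        constructor
        · rintro ⟨⟨⟨h1, h2⟩, h3⟩, rfl⟩
          exact ⟨a, ⟨h1.symm, h2.symm⟩, rfl, rfl⟩
        · rintro ⟨y, ⟨h1, h2⟩, rfl, rfl⟩
          exact ⟨⟨⟨h1.symm, h2.symm⟩, h1.ne'⟩, rfl⟩
      have e5 : (((P G C).filter fun p => ¬ p.1 = x).filter fun p => ¬ p.2 = x) =
          (P G C).filter fun p => p.1 ≠ x ∧ p.2 ≠ x := by
        rw [filter_filter]
      rw [e5, e4, card_image_of_injective _ (fun a b h => (Prod.mk.inj h).1)] at e2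
      rw [e3, card_image_of_injective _ (fun a b h => (Prod.mk.inj h).2)] at e1
      omega
    have same : ((P G A).filter fun p => p.1 ≠ x ∧ p.2 ≠ x) =
        ((P G B).filter fun p => p.1 ≠ x ∧ p.2 ≠ x) := by
      ext ⟨a, b⟩
      simp only [P, mem_filter, mem_univ, true_and]
      constructor
      · rintro ⟨⟨h1, h2⟩, h3, h4⟩
        exact ⟨⟨h1, by rw [hB a h3, hB b h4]; exact h2⟩, h3, h4⟩
      · rintro ⟨⟨h1, h2⟩, h3, h4⟩
        exact ⟨⟨h1, by rw [hB a h3, hB b h4] at h2; exact h2⟩, h3, h4⟩
    have s1 := split A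
    have s2 := split B
    rw [same] at s1
    omega
  refine ⟨A, fun x hx => ?_, fun x hx => ?_⟩
  · have h := key x (A.erase x) (fun y hy => by simp [hy]) (by simp [hx])
    have e1 : (univ.filter fun y => G.Adj x y ∧ (x ∈ A ↔ y ∈ A)) = G.neighborFinset x ∩ A := by
      ext y
      simp [hx]
    have e2 : (univ.filter fun y => G.Adj x y ∧ (x ∈ A.erase x ↔ y ∈ A.erase x)) =
        G.neighborFinset x \ A := by
      ext y
      simp only [mem_filter, mem_univ, true_and, mem_erase, ne_eq, not_true_eq_false, false_and,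
        false_iff, not_and, mem_sdiff, SimpleGraph.mem_neighborFinset]
      constructor
      · rintro ⟨h1, h2⟩
        exact ⟨h1, h2 h1.ne'⟩
      · rintro ⟨h1, h2⟩
        exact ⟨h1, fun _ => h2⟩
    rwa [e1, e2] at h
  · have h := key x (insert x A) (fun y hy => by simp [hy]) (by simp [hx])
    have e1 : (univ.filter fun y => G.Adj x y ∧ (x ∈ A ↔ y ∈ A)) = G.neighborFinset x \ A := by
      ext y
      simp [hx]
    have e2 : (univ.filter fun y => G.Adj x y ∧ (x ∈ insert x A ↔ y ∈ insert x A)) =
        G.neighborFinset x ∩ A := by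
      ext y
      simp only [mem_filter, mem_univ, true_and, mem_insert, true_or, true_iff, mem_inter,
        SimpleGraph.mem_neighborFinset]
      constructor
      · rintro ⟨h1, h2 | h2⟩
        · exact absurd h2.symm h1.ne
        · exact ⟨h1, h2⟩
      · rintro ⟨h1, h2⟩
        exact ⟨h1, Or.inr h2⟩
    rwa [e1, e2] at h

/-- if all degrees are at most five, then a maximum cut is good -/
lemma good_of_degree (h : ∀ x, (G.neighborFinset x).card ≤ 5) : ∃ A, Good G A := by
  obtain ⟨A, h1, h2⟩ := maxcut G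
  refine ⟨A, fun x hx => ?_, fun x hx => ?_⟩
  · have e1 := h1 x hx
    have e2 := card_sdiff_add_card_inter (G.neighborFinset x) A
    have e3 := h x
    omega
  · have e1 := h2 x hx
    have e2 := card_sdiff_add_card_inter (G.neighborFinset x) A
    have e3 := h x
    omega

/-- the number of the edges, after the removal of a vertex -/
lemma remove_vertex (G' : SimpleGraph V) [DecidableRel G'.Adj] (x : V)
    (h : G' = G.deleteIncidenceSet x) :
    G.edgeFinset.card = G.degree x + G'.edgeFinset.card := by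
  have h1 := G.card_edgeFinset_deleteIncidenceSet x
  have h2 := G.degree_le_card_edgeFinset x
  have h3 : G'.edgeFinset.card = G'.edgeSet.ncard := by
    rw [← SimpleGraph.coe_edgeFinset, Set.ncard_coe_finset]
  have h4 : (G.deleteIncidenceSet x).edgeFinset.card = (G.deleteIncidenceSet x).edgeSet.ncard := by
    rw [← SimpleGraph.coe_edgeFinset, Set.ncard_coe_finset]
  have h5 : G'.edgeSet.ncard = (G.deleteIncidenceSet x).edgeSet.ncard := by rw [h]
  omega

/-- the number of the edges, after the removal of four vertices -/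
lemma edges_four (v x y z : V) (hvx : v ≠ x) (hvy : v ≠ y) (hvz : v ≠ z) (hxy : x ≠ y) (hxz : x ≠ z)
    (hyz : y ≠ z) : ∃ E : Finset (Sym2 V),
    (∀ a b, a ≠ v ∧ a ≠ x ∧ a ≠ y ∧ a ≠ z → b ≠ v ∧ b ≠ x ∧ b ≠ y ∧ b ≠ z → G.Adj a b → s(a, b) ∈ E) ∧
    G.edgeFinset.card = (G.neighborFinset v).card + (G.neighborFinset x \ {v}).card +
      (G.neighborFinset y \ {v, x}).card + (G.neighborFinset z \ {v, x, y}).card + E.card := by
  classical
  obtain ⟨G1, hG1⟩ : ∃ G1, G1 = G.deleteIncidenceSet v := ⟨_, rfl⟩
  obtain ⟨G2, hG2⟩ : ∃ G2, G2 = G1.deleteIncidenceSet x := ⟨_, rfl⟩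
  obtain ⟨G3, hG3⟩ : ∃ G3, G3 = G2.deleteIncidenceSet y := ⟨_, rfl⟩
  obtain ⟨G4, hG4⟩ : ∃ G4, G4 = G3.deleteIncidenceSet z := ⟨_, rfl⟩
  have c1 := remove_vertex G G1 v hG1
  have c2 := remove_vertex G1 G2 x hG2
  have c3 := remove_vertex G2 G3 y hG3
  have c4 := remove_vertex G3 G4 z hG4
  have a1 : ∀ a b, G1.Adj a b ↔ G.Adj a b ∧ a ≠ v ∧ b ≠ v := fun a b => by
    rw [hG1, SimpleGraph.deleteIncidenceSet_adj]
  have a2 : ∀ a b, G2.Adj a b ↔ G1.Adj a b ∧ a ≠ x ∧ b ≠ x := fun a b => by
    rw [hG2, SimpleGraph.deleteIncidenceSet_adj]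
  have a3 : ∀ a b, G3.Adj a b ↔ G2.Adj a b ∧ a ≠ y ∧ b ≠ y := fun a b => by
    rw [hG3, SimpleGraph.deleteIncidenceSet_adj]
  have a4 : ∀ a b, G4.Adj a b ↔ G3.Adj a b ∧ a ≠ z ∧ b ≠ z := fun a b => by
    rw [hG4, SimpleGraph.deleteIncidenceSet_adj]
  have d2 : G1.degree x = (G.neighborFinset x \ {v}).card := by
    rw [← SimpleGraph.card_neighborFinset_eq_degree]
    congr 1
    ext t
    simp only [SimpleGraph.mem_neighborFinset, a1, mem_sdiff, mem_singleton]
    tauto
  have d3 : G2.degree y = (G.neighborFinset y \ {v, x}).card := by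
    rw [← SimpleGraph.card_neighborFinset_eq_degree]
    congr 1
    ext t
    simp only [SimpleGraph.mem_neighborFinset, a1, a2, mem_sdiff, mem_singleton, mem_insert]
    have := hvy.symm
    have := hxy.symm
    tauto
  have d4 : G3.degree z = (G.neighborFinset z \ {v, x, y}).card := by
    rw [← SimpleGraph.card_neighborFinset_eq_degree]
    congr 1
    ext t
    simp only [SimpleGraph.mem_neighborFinset, a1, a2, a3, mem_sdiff, mem_singleton, mem_insert]
    have := hvz.symm
    have := hxz.symm
    have := hyz.symm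
    tauto
  have d1 : G.degree v = (G.neighborFinset v).card := (SimpleGraph.card_neighborFinset_eq_degree G v).symm
  refine ⟨G4.edgeFinset, fun a b ha hb hab => ?_, ?_⟩
  · rw [SimpleGraph.mem_edgeFinset, SimpleGraph.mem_edgeSet, a4, a3, a2, a1]
    tauto
  · rw [d1] at c1
    rw [d2] at c2
    rw [d3] at c3
    rw [d4] at c4
    omega

/-- **Every graph with at most `17` edges has a partition of its vertices into two parts such that every
vertex has at most two neighbours in its own part.** -/
theorem good_of_card_le (h : G.edgeFinset.card ≤ 17) : ∃ A, Good G A := by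
  by_contra hbad
  push Not at hbad
  -- the hub
  obtain ⟨v, hv⟩ : ∃ v, 6 ≤ (G.neighborFinset v).card := by
    by_contra hcon
    push Not at hcon
    obtain ⟨A, hA⟩ := good_of_degree G fun x => Nat.lt_succ_iff.1 (hcon x)
    exact hbad A hA
  -- two vertices do not suffice
  have three : ∀ p q : V, ∃ y, y ≠ v ∧ y ≠ p ∧ y ≠ q ∧ 3 ≤ (G.neighborFinset y \ {v, p, q}).card := by
    intro p q
    by_contra hcon
    push Not at hcon
    apply hbad {v, p, q}
    refine ⟨own3 G v p q, fun y hy => ?_⟩
    simp only [mem_insert, mem_singleton, not_or] at hy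
    have := hcon y hy.1 hy.2.1 hy.2.2
    omega
  obtain ⟨t, ht, _, _, _⟩ := three v v
  -- greedy choice of the centres
  obtain ⟨x, hx, hxmax⟩ := Finset.exists_max_image (univ.erase v)
    (fun x => (G.neighborFinset x \ {v}).card) ⟨t, by simp [ht]⟩
  have hxv : x ≠ v := (mem_erase.1 hx).1
  obtain ⟨t', ht1, ht2, _, _⟩ := three x x
  obtain ⟨y, hy, hymax⟩ := Finset.exists_max_image ((univ.erase v).erase x)
    (fun y => (G.neighborFinset y \ {v, x}).card) ⟨t', by simp [ht1, ht2]⟩
  have hyx : y ≠ x := (mem_erase.1 hy).1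
  have hyv : y ≠ v := (mem_erase.1 (mem_erase.1 hy).2).1
  obtain ⟨z, hzv, hzx, hzy, hz3⟩ := three x y
  obtain ⟨E, hE1, hE2⟩ := edges_four G v x y z hxv.symm hyv.symm hzv.symm hyx.symm hzx.symm hzy.symm
  set L : Finset V := univ.filter fun w => w ≠ v ∧ w ≠ x ∧ w ≠ y ∧ w ≠ z with hL
  have memL : ∀ w, w ∈ L ↔ w ≠ v ∧ w ≠ x ∧ w ≠ y ∧ w ≠ z := fun w => by rw [hL]; simp
  -- degrees and degrees in `L`
  have dz : (G.neighborFinset z \ {v, x, y}).card = (G.neighborFinset z ∩ L).card := by
    congr 1
    ext w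
    simp only [mem_sdiff, mem_inter, SimpleGraph.mem_neighborFinset, mem_insert, mem_singleton, memL,
      not_or]
    constructor
    · rintro ⟨h1, h2, h3, h4⟩
      exact ⟨h1, h2, h3, h4, h1.ne'⟩
    · rintro ⟨h1, h2, h3, h4, _⟩
      exact ⟨h1, h2, h3, h4⟩
  have dcard : ∀ (S T : Finset V) (a : V), a ∉ T → S ⊆ insert a T → T ⊆ S →
      S.card = T.card + (if a ∈ S then 1 else 0) := by
    intro S T a ha h1 h2
    split_ifs with haS
    · have : S = insert a T := subset_antisymm h1 (insert_subset haS h2)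
      rw [this, card_insert_of_notMem ha]
    · have : S = T := by
        refine subset_antisymm (fun t ht => ?_) h2
        rcases mem_insert.1 (h1 ht) with rfl | h3
        · exact absurd ht haS
        · exact h3
      rw [this, add_zero]
  have eeI : ∀ (a b : V) (T : Finset V), b ∉ T →
      (if b ∈ G.neighborFinset a \ T then 1 else 0) = ee G a b := by
    intro a b T hb
    unfold ee
    simp only [mem_sdiff, SimpleGraph.mem_neighborFinset, hb, not_false_eq_true, and_true]
  have dy : (G.neighborFinset y \ {v, x}).card = (G.neighborFinset y ∩ L).card + ee G y z := by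
    rw [← eeI y z {v, x} (by simp [hzv, hzx])]
    apply dcard
    · rw [mem_inter, memL]; tauto
    · intro w hw
      simp only [mem_sdiff, SimpleGraph.mem_neighborFinset, mem_insert, mem_singleton, not_or,
        mem_inter, memL] at hw ⊢
      by_cases hwz : w = z
      · exact Or.inl hwz
      · exact Or.inr ⟨hw.1, hw.2.1, hw.2.2, hw.1.ne', hwz⟩
    · intro w hw
      simp only [mem_sdiff, SimpleGraph.mem_neighborFinset, mem_insert, mem_singleton, not_or,
        mem_inter, memL] at hw ⊢
      exact ⟨hw.1, hw.2.1, hw.2.2.1⟩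
  have dx0 : (G.neighborFinset x \ {v, y}).card = (G.neighborFinset x ∩ L).card + ee G x z := by
    rw [← eeI x z {v, y} (by simp [hzv, hzy])]
    apply dcard
    · rw [mem_inter, memL]; tauto
    · intro w hw
      simp only [mem_sdiff, SimpleGraph.mem_neighborFinset, mem_insert, mem_singleton, not_or,
        mem_inter, memL] at hw ⊢
      by_cases hwz : w = z
      · exact Or.inl hwz
      · exact Or.inr ⟨hw.1, hw.2.1, hw.1.ne', hw.2.2, hwz⟩
    · intro w hw
      simp only [mem_sdiff, SimpleGraph.mem_neighborFinset, mem_insert, mem_singleton, not_or,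
        mem_inter, memL] at hw ⊢
      exact ⟨hw.1, hw.2.1, hw.2.2.2.1⟩
  have dx : (G.neighborFinset x \ {v}).card = (G.neighborFinset x \ {v, y}).card + ee G x y := by
    rw [← eeI x y {v} (by simp [hyv])]
    apply dcard
    · simp
    · intro w hw
      simp only [mem_sdiff, SimpleGraph.mem_neighborFinset, mem_insert, mem_singleton, not_or] at hw ⊢
      by_cases hwy : w = y
      · exact Or.inl hwy
      · exact Or.inr ⟨hw.1, hw.2, hwy⟩
    · intro w hw
      simp only [mem_sdiff, SimpleGraph.mem_neighborFinset, mem_insert, mem_singleton, not_or] at hw ⊢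
      exact ⟨hw.1, hw.2.1⟩
  -- the other degrees of `y` and `z`
  have dz1 : (G.neighborFinset z \ {v, x}).card = (G.neighborFinset z ∩ L).card + ee G y z := by
    rw [← dz, ee_comm, ← eeI z y {v, x} (by simp [hyv, hyx])]
    apply dcard
    · simp
    · intro w hw
      simp only [mem_sdiff, SimpleGraph.mem_neighborFinset, mem_insert, mem_singleton, not_or] at hw ⊢
      by_cases hwy : w = y
      · exact Or.inl hwy
      · exact Or.inr ⟨hw.1, hw.2.1, hw.2.2, hwy⟩
    · intro w hw
      simp only [mem_sdiff, SimpleGraph.mem_neighborFinset, mem_insert, mem_singleton, not_or] at hw ⊢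
      exact ⟨hw.1, hw.2.1, hw.2.2.1⟩
  have dz2 : (G.neighborFinset z \ {v}).card = (G.neighborFinset z \ {v, x}).card + ee G x z := by
    rw [ee_comm, ← eeI z x {v} (by simp [hxv])]
    apply dcard
    · simp
    · intro w hw
      simp only [mem_sdiff, SimpleGraph.mem_neighborFinset, mem_insert, mem_singleton, not_or] at hw ⊢
      by_cases hwy : w = x
      · exact Or.inl hwy
      · exact Or.inr ⟨hw.1, hw.2, hwy⟩
    · intro w hw
      simp only [mem_sdiff, SimpleGraph.mem_neighborFinset, mem_insert, mem_singleton, not_or] at hw ⊢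
      exact ⟨hw.1, hw.2.1⟩
  have dy2 : (G.neighborFinset y \ {v}).card = (G.neighborFinset y \ {v, x}).card + ee G x y := by
    rw [ee_comm, ← eeI y x {v} (by simp [hxv])]
    apply dcard
    · simp
    · intro w hw
      simp only [mem_sdiff, SimpleGraph.mem_neighborFinset, mem_insert, mem_singleton, not_or] at hw ⊢
      by_cases hwy : w = x
      · exact Or.inl hwy
      · exact Or.inr ⟨hw.1, hw.2, hwy⟩
    · intro w hw
      simp only [mem_sdiff, SimpleGraph.mem_neighborFinset, mem_insert, mem_singleton, not_or] at hw ⊢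
      exact ⟨hw.1, hw.2.1⟩
  have m1 := hxmax y (by simp [hyv])
  have m2 := hxmax z (by simp [hzv])
  have m3 := hymax z (by simp [hzv, hzx])
  have ele : ∀ a b : V, ee G a b ≤ 1 := fun a b => by unfold ee; split_ifs <;> omega
  have el1 := ele x y
  have el2 := ele x z
  have el3 := ele y z
  have hd3y : 3 ≤ (G.neighborFinset y ∩ L).card := by omega
  have hEr : ∀ w ∈ L, (G.neighborFinset w ∩ L).card ≤ E.card := by
    intro w hw
    apply card_le_card_of_injOn (fun b => s(w, b))
    · intro b hb
      simp only [coe_inter, Set.mem_inter_iff, mem_coe, SimpleGraph.mem_neighborFinset] at hb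
      exact hE1 w b ((memL w).1 hw) ((memL b).1 hb.2) hb.1
    · intro b _ c _ hbc
      exact Sym2.congr_right.1 hbc
  have hd3x : 3 ≤ (G.neighborFinset x ∩ L).card := by
    by_contra hcon
    have hr : E.card ≤ 1 := by omega
    apply hbad {v, y, z}
    refine ⟨own3 G v y z, fun w hw => ?_⟩
    simp only [mem_insert, mem_singleton, not_or] at hw
    by_cases hwx : w = x
    · subst hwx
      have : G.neighborFinset w \ {v, y, z} ⊆ G.neighborFinset w ∩ L := by
        intro s hs
        simp only [mem_sdiff, SimpleGraph.mem_neighborFinset, mem_insert, mem_singleton, not_or,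
          mem_inter, memL] at hs ⊢
        exact ⟨hs.1, hs.2.1, hs.1.ne', hs.2.2.1, hs.2.2.2⟩
      have := card_le_card this
      omega
    · have hwL : w ∈ L := (memL w).2 ⟨hw.1, hwx, hw.2.1, hw.2.2⟩
      have : G.neighborFinset w \ {v, y, z} ⊆ insert x (G.neighborFinset w ∩ L) := by
        intro s hs
        simp only [mem_sdiff, SimpleGraph.mem_neighborFinset, mem_insert, mem_singleton, not_or,
          mem_inter, memL] at hs ⊢
        by_cases hsx : s = x
        · exact Or.inl hsx
        · exact Or.inr ⟨hs.1, hs.2.1, hsx, hs.2.2.1, hs.2.2.2⟩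
      have h1 := card_le_card this
      have h2 := card_insert_le x (G.neighborFinset w ∩ L)
      have h3 := hEr w hwL
      omega
  have cfg : Cfg G v x y z L E :=
    { hvx := hxv.symm
      hvy := hyv.symm
      hvz := hzv.symm
      hxy := hyx.symm
      hxz := hzx.symm
      hyz := hzy.symm
      hL := memL
      hE := fun a b ha hb hab => hE1 a b ((memL a).1 ha) ((memL b).1 hb) hab
      hN := hv
      h3x := hd3x
      h3y := hd3y
      h3z := by omega
      tot := by omega
      h2 := by
        intro hE w hw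
        have := hxmax w (by simp [hw])
        omega
      bad := hbad }
  exact cfg.false

end Pool.Agent.Lib.MP_270b6b_co.N3
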